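import Mathlib

set_option autoImplicit false

/-!
# Geometric weights: sums over boxes and exponential tail bounds
-/

namespace Pool.Agent.R422.CT

open Finset

/-- the geometric weight with mean `z` -/
noncomputable def w (z : ℝ) (x : ℕ) : ℝ := (1 + z)⁻¹ * (z / (1 + z)) ^ x

lemma w_nonneg {z : ℝ} (hz : 0 ≤ z) (x : ℕ) : 0 ≤ w z x := by
  unfold w; positivity

lemma w_eq {z : ℝ} (hz : 0 < z) (x : ℕ) :
    w z x = Real.exp (-(Real.log (1 + z) + x * Real.log (1 + 1 / z))) := by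
  have h1 : 0 < 1 + z := by positivity
  have h2 : 0 < 1 + 1 / z := by positivity
  rw [neg_add, Real.exp_add, Real.exp_neg, Real.exp_log h1, ← mul_neg, Real.exp_nat_mul,
    Real.exp_neg, Real.exp_log h2, w]
  congr 2
  field_simp
  ring

lemma mgf {z s : ℝ} (hz : 0 < z) (hs : |s| ≤ 1 / (4 * (1 + z))) (K : ℕ) :
    ∑ x ∈ range K, w z x * Real.exp (s * x) ≤
      Real.exp (s * z + (z + 8 * z ^ 2) * s ^ 2) := by
  have hz1 : 0 < 1 + z := by positivity
  have hs4 : |s| * (4 * (1 + z)) ≤ 1 := by rwa [le_div_iff₀ (by positivity)] at hs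
  have hs0 := abs_nonneg s
  have hs1 : |s| ≤ 1 := by nlinarith
  have h1 : |Real.exp s - 1| ≤ 2 * |s| := Real.abs_exp_sub_one_le hs1
  have h2 : |Real.exp s - 1 - s| ≤ s ^ 2 := Real.abs_exp_sub_one_sub_id_le hs1
  set u : ℝ := z * (Real.exp s - 1) with hu
  have hu1 : |u| ≤ 2 * z * |s| := by
    rw [hu, abs_mul, abs_of_pos hz]; nlinarith
  have hu2 : |u| ≤ 1 / 2 := by nlinarith
  have hu3 : u ≤ 1 / 2 := (le_abs_self u).trans hu2
  set ρ : ℝ := z / (1 + z) * Real.exp s with hρ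
  have hρ0 : 0 ≤ ρ := by positivity
  have e1 : (1 + z) * (1 - ρ) = 1 - u := by
    rw [hρ, hu]; field_simp; ring
  have e2 : ∑ x ∈ range K, w z x * Real.exp (s * x) = (1 + z)⁻¹ * ∑ x ∈ range K, ρ ^ x := by
    rw [mul_sum]
    refine sum_congr rfl fun x _ => ?_
    rw [w, hρ, mul_pow, mul_comm s, Real.exp_nat_mul]; ring
  have hρ1 : 0 < 1 - ρ := by
    have : 0 < (1 + z) * (1 - ρ) := by rw [e1]; linarith
    exact pos_of_mul_pos_right this hz1.le
  have e3 : ∑ x ∈ range K, ρ ^ x ≤ (1 - ρ)⁻¹ := by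
    rw [← one_div, le_div_iff₀ hρ1, mul_comm, mul_neg_geom_sum]
    linarith [pow_nonneg hρ0 K]
  have e4 : ∑ x ∈ range K, w z x * Real.exp (s * x) ≤ (1 - u)⁻¹ := by
    rw [e2, ← e1, mul_inv]
    exact mul_le_mul_of_nonneg_left e3 (by positivity)
  refine e4.trans ?_
  have h1u : 0 < 1 - u := by linarith
  have e5 : (1 - u)⁻¹ = Real.exp (-Real.log (1 - u)) := by
    rw [Real.exp_neg, Real.exp_log h1u]
  rw [e5]
  apply Real.exp_le_exp.2
  have e6 := Real.abs_log_sub_add_sum_range_le (x := u) (by linarith) 1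
  simp only [sum_range_one, Nat.cast_zero, zero_add, pow_one, div_one] at e6
  have e7 : |u| ^ (1 + 1) / (1 - |u|) ≤ 2 * u ^ 2 := by
    rw [div_le_iff₀ (by linarith)]
    have : |u| ^ (1 + 1) = u ^ 2 := by norm_num
    rw [this]
    nlinarith [sq_nonneg u]
  have e8 : -Real.log (1 - u) ≤ u + 2 * u ^ 2 := by
    have := (abs_le.1 (e6.trans e7)).1
    linarith
  have e9 : u ≤ z * (s + s ^ 2) := by
    rw [hu]
    apply mul_le_mul_of_nonneg_left _ hz.le
    linarith [(abs_le.1 h2).2]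
  have e10 : u ^ 2 ≤ 4 * z ^ 2 * s ^ 2 := by
    have : u ^ 2 = |u| ^ 2 := (sq_abs u).symm
    rw [this]
    calc |u| ^ 2 ≤ (2 * z * |s|) ^ 2 := pow_le_pow_left₀ (abs_nonneg u) hu1 2
      _ = 4 * z ^ 2 * s ^ 2 := by rw [mul_pow, mul_pow, sq_abs]; ring
  linarith

lemma mass_le {z : ℝ} (hz : 0 < z) (K : ℕ) : ∑ x ∈ range K, w z x ≤ 1 := by
  have := mgf (s := 0) hz (by simp; positivity) K
  simpa using this

lemma mass_tendsto {z : ℝ} (hz : 0 < z) :
    Filter.Tendsto (fun K => ∑ x ∈ range K, w z x) Filter.atTop (nhds 1) := by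
  have h1 : z / (1 + z) < 1 := by rw [div_lt_one (by positivity)]; linarith
  have h2 := (hasSum_geometric_of_lt_one (by positivity) h1).mul_left (1 + z)⁻¹
  have h3 : (1 + z)⁻¹ * (1 - z / (1 + z))⁻¹ = 1 := by
    have : 1 - z / (1 + z) = (1 + z)⁻¹ := by field_simp; ring
    rw [this, inv_inv, inv_mul_cancel₀ (by positivity)]
  rw [h3] at h2
  exact h2.tendsto_sum_nat

section box

variable {P : Type*} [Fintype P] [DecidableEq P]

/-- the box -/
def box (P : Type*) [Fintype P] [DecidableEq P] (K : ℕ) : Finset (P → ℕ) :=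
  Fintype.piFinset (fun _ : P => range K)

lemma mem_box {K : ℕ} {X : P → ℕ} : X ∈ box P K ↔ ∀ p, X p < K := by
  simp [box, Fintype.mem_piFinset]

lemma box_sum (f : P → ℕ → ℝ) (K : ℕ) :
    ∑ X ∈ box P K, ∏ p, f p (X p) = ∏ p, ∑ x ∈ range K, f p x :=
  (prod_univ_sum _ _).symm

/-- the product weight -/
noncomputable def W (z : P → ℝ) (X : P → ℕ) : ℝ := ∏ p, w (z p) (X p)

lemma W_nonneg {z : P → ℝ} (hz : ∀ p, 0 < z p) (X : P → ℕ) : 0 ≤ W z X :=
  prod_nonneg fun p _ => w_nonneg (hz p).le _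

lemma mass_box {z : P → ℝ} (hz : ∀ p, 0 < z p) :
    Filter.Tendsto (fun K => ∑ X ∈ box P K, W z X) Filter.atTop (nhds 1) := by
  have h1 : ∀ K, ∑ X ∈ box P K, W z X = ∏ p, ∑ x ∈ range K, w (z p) x := fun K =>
    box_sum (fun p => w (z p)) K
  simp_rw [h1]
  have := tendsto_finsetProd (univ : Finset P) (fun p _ => mass_tendsto (hz p))
  simpa using this

lemma chern {z : P → ℝ} (hz : ∀ p, 0 < z p) (J : Finset P) (s : ℝ)
    (hs : ∀ p ∈ J, |s| ≤ 1 / (4 * (1 + z p))) (K : ℕ) :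
    ∑ X ∈ box P K, W z X * Real.exp (s * ∑ p ∈ J, ((X p : ℝ) - z p)) ≤
      Real.exp (s ^ 2 * ∑ p ∈ J, (z p + 8 * z p ^ 2)) := by
  have h1 : ∀ X : P → ℕ, W z X * Real.exp (s * ∑ p ∈ J, ((X p : ℝ) - z p)) =
      ∏ p, (w (z p) (X p) * (if p ∈ J then Real.exp (s * ((X p : ℝ) - z p)) else 1)) := by
    intro X
    rw [prod_mul_distrib, W, prod_ite_mem, univ_inter, mul_sum, Real.exp_sum]
  simp_rw [h1]
  rw [box_sum (fun p x => w (z p) x * (if p ∈ J then Real.exp (s * ((x : ℝ) - z p)) else 1)) K]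
  have h2 : Real.exp (s ^ 2 * ∑ p ∈ J, (z p + 8 * z p ^ 2)) =
      ∏ p, (if p ∈ J then Real.exp (s ^ 2 * (z p + 8 * z p ^ 2)) else 1) := by
    rw [prod_ite_mem, univ_inter, mul_sum, Real.exp_sum]
  rw [h2]
  refine prod_le_prod (fun p _ => sum_nonneg fun x _ => ?_) (fun p _ => ?_)
  · refine mul_nonneg (w_nonneg (hz p).le _) ?_
    split_ifs <;> positivity
  · by_cases hp : p ∈ J
    · simp only [if_pos hp]
      have h3 := mgf (hz p) (hs p hp) K
      have h4 : ∑ x ∈ range K, w (z p) x * Real.exp (s * ((x : ℝ) - z p)) =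
          Real.exp (-(s * z p)) * ∑ x ∈ range K, w (z p) x * Real.exp (s * x) := by
        rw [mul_sum]
        refine sum_congr rfl fun x _ => ?_
        rw [mul_sub, sub_eq_add_neg, Real.exp_add]; ring
      rw [h4]
      calc Real.exp (-(s * z p)) * ∑ x ∈ range K, w (z p) x * Real.exp (s * x)
          ≤ Real.exp (-(s * z p)) * Real.exp (s * z p + (z p + 8 * z p ^ 2) * s ^ 2) :=
            mul_le_mul_of_nonneg_left h3 (Real.exp_pos _).le
        _ = Real.exp (s ^ 2 * (z p + 8 * z p ^ 2)) := by rw [← Real.exp_add]; ring_nf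
    · simp only [if_neg hp, mul_one]
      exact mass_le (hz p) K

lemma tail {z : P → ℝ} (hz : ∀ p, 0 < z p) (J : Finset P) (s t V : ℝ)
    (hs : ∀ p ∈ J, |s| ≤ 1 / (4 * (1 + z p))) (hV : ∑ p ∈ J, (z p + 8 * z p ^ 2) ≤ V) (K : ℕ)
    (F : Finset (P → ℕ)) (hF : F ⊆ box P K)
    (hFt : ∀ X ∈ F, t ≤ s * ∑ p ∈ J, ((X p : ℝ) - z p)) :
    ∑ X ∈ F, W z X ≤ Real.exp (-t + s ^ 2 * V) := by
  have h1 := chern hz J s hs K
  have h2 : ∑ X ∈ F, W z X ≤
      ∑ X ∈ F, Real.exp (-t) * (W z X * Real.exp (s * ∑ p ∈ J, ((X p : ℝ) - z p))) := by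
    refine sum_le_sum fun X hX => ?_
    have h3 : 1 ≤ Real.exp (-t) * Real.exp (s * ∑ p ∈ J, ((X p : ℝ) - z p)) := by
      rw [← Real.exp_add]
      apply Real.one_le_exp
      linarith [hFt X hX]
    have h4 := W_nonneg hz X
    nlinarith
  refine h2.trans ?_
  rw [← mul_sum]
  calc Real.exp (-t) * ∑ X ∈ F, W z X * Real.exp (s * ∑ p ∈ J, ((X p : ℝ) - z p))
      ≤ Real.exp (-t) * ∑ X ∈ box P K, W z X * Real.exp (s * ∑ p ∈ J, ((X p : ℝ) - z p)) := by
        refine mul_le_mul_of_nonneg_left ?_ (Real.exp_pos _).le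
        exact sum_le_sum_of_subset_of_nonneg hF fun X _ _ =>
          mul_nonneg (W_nonneg hz X) (Real.exp_pos _).le
    _ ≤ Real.exp (-t) * Real.exp (s ^ 2 * ∑ p ∈ J, (z p + 8 * z p ^ 2)) :=
        mul_le_mul_of_nonneg_left h1 (Real.exp_pos _).le
    _ ≤ Real.exp (-t + s ^ 2 * V) := by
        rw [← Real.exp_add]
        apply Real.exp_le_exp.2
        have := mul_le_mul_of_nonneg_left hV (sq_nonneg s)
        linarith

end box

/-! ### Integer tables with given margins -/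

lemma transport {P Q : Type*} [Fintype P] [Fintype Q] [DecidableEq P] [DecidableEq Q] :
    ∀ (N : ℕ) (ρ : P → ℕ) (σ : Q → ℕ), ∑ p, ρ p = N → ∑ q, σ q = N →
      ∃ X : P → Q → ℕ, (∀ p, ∑ q, X p q = ρ p) ∧ ∀ q, ∑ p, X p q = σ q := by
  intro N
  induction N with
  | zero =>
    intro ρ σ hρ hσ
    refine ⟨fun _ _ => 0, fun p => ?_, fun q => ?_⟩
    · have := (sum_eq_zero_iff.1 hρ) p (mem_univ p); simp [this]
    · have := (sum_eq_zero_iff.1 hσ) q (mem_univ q); simp [this]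
  | succ N ih =>
    intro ρ σ hρ hσ
    obtain ⟨p₀, -, hp⟩ := exists_ne_zero_of_sum_ne_zero (s := univ) (f := ρ) (by omega)
    obtain ⟨q₀, -, hq⟩ := exists_ne_zero_of_sum_ne_zero (s := univ) (f := σ) (by omega)
    have e1 : ∑ p, (ρ p - if p = p₀ then 1 else 0) = N := by
      have h1 : ∑ p, (ρ p - if p = p₀ then 1 else 0) + ∑ p, (if p = p₀ then 1 else 0) = N + 1 := by
        rw [← sum_add_distrib, ← hρ]
        refine sum_congr rfl fun p _ => ?_
        split_ifs with h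
        · subst h; omega
        · omega
      simp at h1
      omega
    have e2 : ∑ q, (σ q - if q = q₀ then 1 else 0) = N := by
      have h1 : ∑ q, (σ q - if q = q₀ then 1 else 0) + ∑ q, (if q = q₀ then 1 else 0) = N + 1 := by
        rw [← sum_add_distrib, ← hσ]
        refine sum_congr rfl fun q _ => ?_
        split_ifs with h
        · subst h; omega
        · omega
      simp at h1
      omega
    obtain ⟨X, hX1, hX2⟩ := ih _ _ e1 e2
    refine ⟨fun p q => X p q + if p = p₀ ∧ q = q₀ then 1 else 0, fun p => ?_, fun q => ?_⟩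
    · rw [sum_add_distrib, hX1]
      by_cases h : p = p₀
      · subst h; simp; omega
      · simp [h]
    · rw [sum_add_distrib, hX2]
      by_cases h : q = q₀
      · subst h; simp; omega
      · simp [h]

end Pool.Agent.R422.CT
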