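import Pool.Agent.R422.CT.Main

set_option autoImplicit false

/-!
# A single row sum is rarely large
-/

namespace Pool.Agent.R422.CT

open Finset

lemma mar_swap {d n K M : ℕ} (i i' : Fin d) (x : Fin d ⊕ Fin n) :
    mar d n K M (Equiv.swap (Sum.inl i) (Sum.inl i') x) = mar d n K M x := by
  rw [Equiv.swap_apply_def]
  split_ifs with h1 h2
  · rw [h1]; rfl
  · rw [h2]; rfl
  · rfl

lemma card_bad_le {d n K M : ℕ} (i i' : Fin d) (c : ℝ) :
    #((tab (mar d n K M)).filter fun X => c < ∑ l, (X (Sum.inl i, Sum.inr l) : ℝ)) ≤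
      #((tab (mar d n K M)).filter fun X => c < ∑ l, (X (Sum.inl i', Sum.inr l) : ℝ)) := by
  refine card_le_card_of_injOn
    (fun X p => X (Equiv.swap (Sum.inl i) (Sum.inl i') p.1, p.2)) ?_ ?_
  · intro X hX
    rw [mem_coe, mem_filter, mem_tab] at hX ⊢
    obtain ⟨⟨h1, h2⟩, h3⟩ := hX
    refine ⟨⟨fun x => ?_, fun y => ?_⟩, ?_⟩
    · exact (h1 (Equiv.swap (Sum.inl i) (Sum.inl i') x)).trans (mar_swap i i' x)
    · exact (Equiv.sum_comp (Equiv.swap (Sum.inl i) (Sum.inl i')) (fun x => X (x, y))).trans (h2 y)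
    · simpa using h3
  · intro X _ Y _ hXY
    funext p
    have := congrFun hXY (Equiv.swap (Sum.inl i) (Sum.inl i') p.1, p.2)
    simpa using this

theorem fin_main {d n K M : ℕ} {Q θ : ℝ} (hθ : 0 < θ) (hQ : 12 ≤ Q)
    (hd : (d : ℝ) = Q ^ 19) (hn : (n : ℝ) = Q ^ 20) (hk : ∃ k : ℕ, (k : ℝ) = Q ^ 16)
    (hK : (K : ℝ) = 2 * Q ^ 20) (hM : (M : ℝ) = Q ^ 20 / 3)
    (hE : 8 * Q ^ 20 * Real.exp (-(Q ^ 3 / 32000)) ≤ 1 / 4) (hQθ : 11 * 576 ≤ θ * Q) :
    0 < #(tab (mar d n K M)) ∧ ∀ i : Fin d,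
      (#((tab (mar d n K M)).filter fun X =>
        Q ^ 20 - Q ^ 19 / 4 < ∑ l, (X (Sum.inl i, Sum.inr l) : ℝ)) : ℝ) ≤
      (θ + 2 * Real.exp (-Q)) * #(tab (mar d n K M)) := by
  classical
  obtain ⟨k, hk⟩ := hk
  obtain ⟨a, b, c, ha1, ha3, hb, hc, hc1, habc⟩ := params Q hQ
  have hQ0 : 0 < Q := by linarith
  have ha2 : a ≤ 1 := by
    have : 0 < 1 / (2 * Q) := by positivity
    linarith
  have hb0 : Q ≤ b := by rw [hb]; nlinarith
  have hapos : 0 < a := by linarith
  have hbpos : 0 < b := by linarith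
  have hcpos : 0 < c := by linarith
  obtain ⟨α, hα, hα0, hα2⟩ := alpha_exists (a := a) (b := b) (c := c) ha1 (by linarith) hc1 habc
  have hlow := lower_main (a := a) (b := b) (c := c) hQ hd hn hk hK hM ha1 ha2 hb hc hc1 hα hα0
    hα2 hE
  set T := tab (mar d n K M) with hT
  set z : (Fin d ⊕ Fin n) × (Fin d ⊕ Fin n) → ℝ := fun p => zz a b c (ty p.1) (ty p.2) with hz
  have hTpos : (0 : ℝ) < #T := lt_of_lt_of_le (by positivity) hlow
  refine ⟨by exact_mod_cast hTpos, fun i₀ => ?_⟩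
  have hrow : ∀ i : Fin d ⊕ Fin n, ∑ j : Fin d ⊕ Fin n, zz a b c (ty i) (ty j) =
      mar d n K M i := by
    rintro (i | i)
    · rw [sum_ty (fun y => zz a b c (ty (Sum.inl i)) y)]
      simp only [ty, mar, Sum.elim_inl, zz, hK]
      rw [hd, hn, hb]; ring
    · rw [sum_ty (fun y => zz a b c (ty (Sum.inr i)) y)]
      simp only [ty, mar, Sum.elim_inr, zz, hM]
      rw [hd, hn, hc]
      field_simp
      ring
  have hW : ∀ X ∈ T, W z X = Real.exp (-Phi z) := fun X hX =>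
    W_tab (fun p => zz_pos hapos hbpos hcpos _ _) (α := fun i => α (ty i)) (fun i j => hα _ _)
      hrow (fun j => by
        rw [← hrow j]
        exact sum_congr rfl fun i _ => zz_sym _ _) hX
  set Bg : Finset (Fin d ⊕ Fin n) := univ.filter fun i => ty i = true with hBg
  set Sm : Finset (Fin d ⊕ Fin n) := univ.filter fun i => ty i = false with hSm
  have hsumSm : ∀ f : Fin d ⊕ Fin n → ℝ, ∑ j ∈ Sm, f j = ∑ l : Fin n, f (Sum.inr l) := by
    intro f
    rw [hSm, sum_filter, Fintype.sum_sum_type]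
    simp [ty]
  have hBgcard : #Bg = d := by
    have : (#Bg : ℝ) = d := by
      rw [card_eq_sum_ones, hBg, Nat.cast_sum, sum_filter, Fintype.sum_sum_type]
      simp [ty]
    exact_mod_cast this
  have htyB : ∀ i ∈ Bg, ty i = true := fun i hi => (mem_filter.1 hi).2
  have htyS : ∀ i ∈ Sm, ty i = false := fun i hi => (mem_filter.1 hi).2
  have ha4 : a + 8 * a ^ 2 ≤ 9 := by nlinarith
  -- tables with many bad rows
  have hup := upper (r := mar d n K M) (z := z) (fun p => zz_pos hapos hbpos hcpos _ _) hW Bg Sm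
    (Q ^ 19 / 4) (1 / (72 * Q)) (Q ^ 18 / 576) (by positivity) (by positivity)
    (fun i hi j hj => by
      simp only [hz, htyB i hi, htyS j hj, zz]
      apply one_div_le_one_div_of_le
      · positivity
      · linarith)
    (fun i hi => by
      have h1 : ∑ j ∈ Sm, (z (i, j) + 8 * z (i, j) ^ 2) = Q ^ 20 * (a + 8 * a ^ 2) := by
        rw [hsumSm (fun j => z (i, j) + 8 * z (i, j) ^ 2)]
        have hzi : ∀ l : Fin n, z (i, Sum.inr l) = a := by
          intro l
          change zz a b c (ty i) (ty (Sum.inr l)) = a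
          rw [htyB i hi]
          rfl
        simp only [hzi, sum_const, card_univ, Fintype.card_fin, nsmul_eq_mul, hn]
      rw [h1]
      have h2 : (1 / (72 * Q)) ^ 2 * (Q ^ 20 * (a + 8 * a ^ 2)) ≤
          (1 / (72 * Q)) ^ 2 * (Q ^ 20 * 9) := by gcongr
      refine (add_le_add_right h2 _).trans (le_of_eq ?_)
      field_simp
      ring)
    (θ * d)
  set TB := T.filter fun X => θ * d ≤
      (#(Bg.filter fun i => Q ^ 19 / 4 ≤ ∑ j ∈ Sm, ((X (i, j) : ℝ) - z (i, j))) : ℝ) with hTB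
  set bad : ((Fin d ⊕ Fin n) × (Fin d ⊕ Fin n) → ℕ) → Fin d → Prop := fun X i =>
    Q ^ 20 - Q ^ 19 / 4 < ∑ l, (X (Sum.inl i, Sum.inr l) : ℝ) with hbad
  have hnum : ∀ X, (#((univ : Finset (Fin d)).filter fun i => bad X i) : ℝ) ≤
      (#(Bg.filter fun i => Q ^ 19 / 4 ≤ ∑ j ∈ Sm, ((X (i, j) : ℝ) - z (i, j))) : ℝ) := by
    intro X
    have : #((univ : Finset (Fin d)).filter fun i => bad X i) ≤
        #(Bg.filter fun i => Q ^ 19 / 4 ≤ ∑ j ∈ Sm, ((X (i, j) : ℝ) - z (i, j))) := by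
      refine card_le_card_of_injOn Sum.inl ?_ (fun x _ y _ h => Sum.inl_injective h)
      intro i hi
      rw [mem_coe, mem_filter] at hi ⊢
      refine ⟨by rw [hBg, mem_filter]; exact ⟨mem_univ _, rfl⟩, ?_⟩
      rw [hsumSm (fun j => (X (Sum.inl i, j) : ℝ) - z (Sum.inl i, j)), sum_sub_distrib]
      have h1 : ∑ l : Fin n, z (Sum.inl i, Sum.inr l) = Q ^ 20 * a := by
        simp only [hz, ty, Sum.elim_inl, Sum.elim_inr, zz, sum_const, card_univ, Fintype.card_fin,
          nsmul_eq_mul, hn]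
      rw [h1]
      have h2 : Q ^ 20 * a ≤ Q ^ 20 - Q ^ 19 / 2 := by
        calc Q ^ 20 * a ≤ Q ^ 20 * (1 - 1 / (2 * Q)) := by gcongr
          _ = Q ^ 20 - Q ^ 19 / 2 := by field_simp
      have h3 := hi.2
      simp only [hbad] at h3
      linarith
    exact_mod_cast this
  have hX : ∀ X ∈ T, ∑ i : Fin d, (if bad X i then (1 : ℝ) else 0) ≤
      θ * d + d * (if X ∈ TB then 1 else 0) := by
    intro X hXT
    have h1 : ∑ i : Fin d, (if bad X i then (1 : ℝ) else 0) =
        #((univ : Finset (Fin d)).filter fun i => bad X i) := by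
      rw [sum_boole]
    rw [h1]
    by_cases h : X ∈ TB
    · rw [if_pos h]
      have h2 : #((univ : Finset (Fin d)).filter fun i => bad X i) ≤ d := by
        refine (card_filter_le _ _).trans ?_
        rw [card_univ, Fintype.card_fin]
      have h3 : (#((univ : Finset (Fin d)).filter fun i => bad X i) : ℝ) ≤ d := by
        exact_mod_cast h2
      have h4 : 0 ≤ θ * d := by positivity
      linarith
    · rw [if_neg h, mul_zero, add_zero]
      have h2 : ¬ θ * d ≤ (#(Bg.filter fun i => Q ^ 19 / 4 ≤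
          ∑ j ∈ Sm, ((X (i, j) : ℝ) - z (i, j))) : ℝ) := fun h3 => h (by
        rw [hTB, mem_filter]; exact ⟨hXT, h3⟩)
      push Not at h2
      exact (hnum X).trans h2.le
  have hsum := sum_le_sum hX
  rw [sum_comm, sum_add_distrib, sum_const, nsmul_eq_mul, ← mul_sum, ← sum_filter] at hsum
  have hTBT : T.filter (fun X => X ∈ TB) = TB := by
    ext X
    rw [mem_filter, hTB, mem_filter]
    tauto
  rw [hTBT, sum_const, nsmul_eq_mul, mul_one] at hsum
  have hbads : ∀ i : Fin d, (#(T.filter fun X => bad X i₀) : ℝ) ≤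
      ∑ X ∈ T, (if bad X i then (1 : ℝ) else 0) := by
    intro i
    rw [sum_boole]
    exact Nat.cast_le.2 (card_bad_le (n := n) (K := K) (M := M) i₀ i (Q ^ 20 - Q ^ 19 / 4))
  have hsum2 : (d : ℝ) * #(T.filter fun X => bad X i₀) ≤
      ∑ i : Fin d, ∑ X ∈ T, (if bad X i then (1 : ℝ) else 0) := by
    calc (d : ℝ) * #(T.filter fun X => bad X i₀) =
          ∑ _i : Fin d, (#(T.filter fun X => bad X i₀) : ℝ) := by
          rw [sum_const, card_univ, Fintype.card_fin, nsmul_eq_mul]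
      _ ≤ _ := sum_le_sum fun i _ => hbads i
  have hdpos : (0 : ℝ) < d := by rw [hd]; positivity
  have h1 : (#(T.filter fun X => bad X i₀) : ℝ) ≤ θ * #T + #TB := by
    have h2 : (d : ℝ) * #(T.filter fun X => bad X i₀) ≤ d * (θ * #T + #TB) := by linarith
    exact le_of_mul_le_mul_left h2 hdpos
  have h2 : (#TB : ℝ) ≤ 2 * Real.exp (-Q) * #T := by
    refine hup.trans ?_
    rw [hBgcard]
    have e1 : (2 : ℝ) ^ d ≤ Real.exp (Q ^ 19) := by
      rw [← hd]
      have e2 : (2 : ℝ) ≤ Real.exp 1 := by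
        have := Real.add_one_le_exp (1 : ℝ); linarith
      calc (2 : ℝ) ^ d ≤ Real.exp 1 ^ d := pow_le_pow_left₀ (by norm_num) e2 d
        _ = Real.exp d := by rw [← Real.exp_nat_mul, mul_one]
    have e3 : Real.exp (Q ^ 19) * Real.exp (Phi z - θ * d * (Q ^ 18 / 576)) ≤
        Real.exp (-Q) * Real.exp (Phi z - 9 * Q ^ 36) := by
      rw [← Real.exp_add, ← Real.exp_add]
      apply Real.exp_le_exp.2
      rw [hd]
      have f1 : θ * Q ^ 19 * (Q ^ 18 / 576) = θ * Q * (Q ^ 36 / 576) := by ring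
      have f2 : 11 * 576 * (Q ^ 36 / 576) ≤ θ * Q * (Q ^ 36 / 576) :=
        mul_le_mul_of_nonneg_right hQθ (by positivity)
      have f3 : Q ^ 19 ≤ Q ^ 36 := pow_le_pow_right₀ (by linarith) (by norm_num)
      have f4 : Q ≤ Q ^ 36 := le_self_pow₀ (by linarith) (by norm_num)
      rw [f1]
      linarith
    calc (2 : ℝ) ^ d * Real.exp (Phi z - θ * d * (Q ^ 18 / 576))
        ≤ Real.exp (Q ^ 19) * Real.exp (Phi z - θ * d * (Q ^ 18 / 576)) :=
          mul_le_mul_of_nonneg_right e1 (Real.exp_pos _).le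
      _ ≤ Real.exp (-Q) * Real.exp (Phi z - 9 * Q ^ 36) := e3
      _ ≤ Real.exp (-Q) * (2 * #T) := by
          apply mul_le_mul_of_nonneg_left _ (Real.exp_pos _).le
          linarith
      _ = 2 * Real.exp (-Q) * #T := by ring
  linarith

end Pool.Agent.R422.CT
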