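import Pool.Agent.R422.CT.Tab

set_option autoImplicit false

/-!
# The row sums of large tables with two kinds of margins
-/

namespace Pool.Agent.R422.CT

open Finset

/-! ### The typical table -/

lemma params (q : ℝ) (hq : 12 ≤ q) : ∃ a b c : ℝ, 1 / 2 ≤ a ∧ a ≤ 1 - 1 / (2 * q) ∧
    b = (2 - a) * q ∧ c = 1 / 3 - a / q ∧ 1 / 4 ≤ c ∧
    (1 + 1 / a) ^ 2 = (1 + 1 / b) * (1 + 1 / c) := by
  have hq0 : 0 < q := by linarith
  have hqi : 1 / q ≤ 1 / 12 := one_div_le_one_div_of_le (by norm_num) hq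
  have hqi0 : 0 < 1 / q := by positivity
  have hc : ∀ a : ℝ, a ≤ 1 → 1 / 4 ≤ 1 / 3 - a / q := by
    intro a ha
    have : a / q = a * (1 / q) := by ring
    rw [this]
    nlinarith
  set f : ℝ → ℝ := fun a => (1 + 1 / a) ^ 2 - (1 + 1 / ((2 - a) * q)) * (1 + 1 / (1 / 3 - a / q))
    with hf
  have hcont : ContinuousOn f (Set.Icc (1 / 2) 1) := by
    intro x hx
    have h1 : x ≠ 0 := by have := hx.1; linarith
    have h2 : (2 - x) * q ≠ 0 := by
      have := hx.2
      have : 0 < (2 - x) * q := mul_pos (by linarith) hq0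
      exact this.ne'
    have h3 : 1 / 3 - x / q ≠ 0 := by have := hc x hx.2; linarith
    apply ContinuousAt.continuousWithinAt
    simp only [hf]
    fun_prop (disch := assumption)
  have h0 : f 1 ≤ 0 := by
    have e1 : 3 ≤ 1 / (1 / 3 - 1 / q) := by
      rw [le_div_iff₀ (by linarith [hc 1 le_rfl])]; linarith
    have e2 : 0 < 1 / ((2 - 1) * q) := by positivity
    simp only [hf]
    nlinarith
  have h1 : 0 ≤ f (1 / 2) := by
    have e1 : 1 / (1 / 3 - 1 / 2 / q) ≤ 4 := by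
      rw [div_le_iff₀ (by linarith [hc (1 / 2) (by norm_num)])]
      linarith [hc (1 / 2) (by norm_num)]
    have e3 : 0 < 1 / (1 / 3 - 1 / 2 / q) := by
      have := hc (1 / 2) (by norm_num)
      exact one_div_pos.2 (by linarith)
    have e2 : 1 / ((2 - 1 / 2) * q) ≤ 1 / 2 := by
      rw [div_le_div_iff₀ (by positivity) (by norm_num)]
      linarith
    have e4 : 0 < 1 / ((2 - 1 / 2) * q) := by positivity
    simp only [hf]
    nlinarith
  obtain ⟨a, ha, hfa⟩ := intermediate_value_Icc' (by norm_num : (1 / 2 : ℝ) ≤ 1) hcont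
    (show (0 : ℝ) ∈ Set.Icc (f 1) (f (1 / 2)) from ⟨h0, h1⟩)
  have hca := hc a ha.2
  have heq : (1 + 1 / a) ^ 2 = (1 + 1 / ((2 - a) * q)) * (1 + 1 / (1 / 3 - a / q)) := by
    simp only [hf] at hfa; linarith
  refine ⟨a, (2 - a) * q, 1 / 3 - a / q, ha.1, ?_, rfl, rfl, hca, heq⟩
  by_contra hcon
  push Not at hcon
  have ha0 : 0 < a := by have := ha.1; linarith
  have hη : 1 / (2 * q) = 1 / q / 2 := by field_simp
  rw [hη] at hcon
  set η := 1 / q / 2 with hηd
  have hη1 : η ≤ 1 / 24 := by rw [hηd]; linarith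
  have hη0 : 0 < η := by rw [hηd]; linarith
  have haq : a / q = 2 * a * η := by rw [hηd]; ring
  have e1 : 3 + 9 * (a / q) ≤ 1 / (1 / 3 - a / q) := by
    rw [le_div_iff₀ (by linarith)]
    nlinarith [sq_nonneg (a / q)]
  have e2 : 0 < 1 / ((2 - a) * q) := by
    have := ha.2
    exact one_div_pos.2 (mul_pos (by linarith) hq0)
  have e3 : 4 + 9 * (a / q) ≤ (1 + 1 / a) ^ 2 := by
    rw [heq]; nlinarith
  have e4 : 1 / a ≤ 1 + 2 * η := by
    rw [div_le_iff₀ ha0]; nlinarith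
  have e5 : 0 < 1 / a := by positivity
  have e6 : (1 + 1 / a) ^ 2 ≤ (2 + 2 * η) ^ 2 := by nlinarith
  rw [haq] at e3
  nlinarith

/-- the kind of an index: `true` for the large margins -/
def ty {d n : ℕ} : Fin d ⊕ Fin n → Bool := Sum.elim (fun _ => true) (fun _ => false)

/-- the entries of the typical table -/
def zz (a b c : ℝ) : Bool → Bool → ℝ
  | true, true => b
  | true, false => a
  | false, true => a
  | false, false => c

/-- the margins -/
def mar (d n K M : ℕ) : Fin d ⊕ Fin n → ℕ := Sum.elim (fun _ => K) (fun _ => M)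

/-! ### Transport along a bijection of the index sets -/

lemma card_tab_equiv {I J : Type*} [Fintype I] [DecidableEq I] [Fintype J] [DecidableEq J]
    (e : J ≃ I) (r : I → ℕ) : #(tab (fun j => r (e j))) = #(tab r) := by
  refine card_nbij' (fun X p => X (e.symm p.1, e.symm p.2)) (fun X p => X (e p.1, e p.2))
    ?_ ?_ ?_ ?_
  · intro X hX
    rw [mem_coe, mem_tab] at hX ⊢
    refine ⟨fun i => ?_, fun i => ?_⟩
    · have := hX.1 (e.symm i)
      rw [e.apply_symm_apply] at this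
      rw [← this]
      exact Equiv.sum_comp e.symm (fun j => X (e.symm i, j))
    · have := hX.2 (e.symm i)
      rw [e.apply_symm_apply] at this
      rw [← this]
      exact Equiv.sum_comp e.symm (fun j => X (j, e.symm i))
  · intro X hX
    rw [mem_coe, mem_tab] at hX ⊢
    exact ⟨fun i => (Equiv.sum_comp e (fun j => X (e i, j))).trans (hX.1 (e i)),
      fun i => (Equiv.sum_comp e (fun j => X (j, e i))).trans (hX.2 (e i))⟩
  · intro X _
    funext p
    simp
  · intro X _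
    funext p
    simp

lemma Phi_equiv {I J : Type*} [Fintype I] [Fintype J]
    (e : J ≃ I) (z : I × I → ℝ) : Phi (fun p : J × J => z (e p.1, e p.2)) = Phi z := by
  unfold Phi
  exact Equiv.sum_comp (Equiv.prodCongr e e) (fun p => hh (z p))

/-! ### Elementary facts on the typical table -/

section

variable {a b c Q : ℝ}

lemma zz_pos (ha : 0 < a) (hb : 0 < b) (hc : 0 < c) (x y : Bool) : 0 < zz a b c x y := by
  cases x <;> cases y <;> assumption

lemma zz_sym (x y : Bool) : zz a b c x y = zz a b c y x := by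
  cases x <;> cases y <;> rfl

lemma zz_false (ha : a ≤ 1) (hc : c ≤ 1) (x : Bool) : zz a b c x false ≤ 1 := by
  cases x <;> assumption

lemma zz_le (hQ : 12 ≤ Q) (ha : a ≤ 1) (hb : b ≤ 2 * Q) (hc : c ≤ 1) (x y : Bool) :
    zz a b c x y ≤ 2 * Q := by
  cases x <;> cases y <;> simp only [zz] <;> linarith

lemma zz_ge (ha : 1 / 4 ≤ a) (hc : 1 / 4 ≤ c) (x : Bool) : 1 / 4 ≤ zz a b c x false := by
  cases x <;> assumption

/-- the Lagrange multipliers -/
lemma alpha_exists (ha : 1 / 2 ≤ a) (hb : 1 / 4 ≤ b) (hc : 1 / 4 ≤ c)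
    (h : (1 + 1 / a) ^ 2 = (1 + 1 / b) * (1 + 1 / c)) : ∃ α : Bool → ℝ,
    (∀ x y, Real.log (1 + 1 / zz a b c x y) = α x + α y) ∧ (∀ x, 0 ≤ α x) ∧ ∀ x, α x ≤ 2 := by
  have ha0 : 0 < a := by linarith
  have hb0 : 0 < b := by linarith
  have hc0 : 0 < c := by linarith
  have key : ∀ z : ℝ, 1 / 4 ≤ z → 0 ≤ Real.log (1 + 1 / z) / 2 ∧ Real.log (1 + 1 / z) / 2 ≤ 2 := by
    intro z hz
    have hz0 : 0 < z := by linarith
    have e0 : 0 < 1 / z := by positivity
    have e1 : 0 ≤ Real.log (1 + 1 / z) := Real.log_nonneg (by linarith)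
    have e2 : Real.log (1 + 1 / z) ≤ 1 / z := by
      have := Real.log_le_sub_one_of_pos (show 0 < 1 + 1 / z by positivity)
      linarith
    have e3 : 1 / z ≤ 4 := by rw [div_le_iff₀ hz0]; linarith
    constructor <;> linarith
  have hlog : 2 * Real.log (1 + 1 / a) = Real.log (1 + 1 / b) + Real.log (1 + 1 / c) := by
    rw [← Real.log_mul (by positivity) (by positivity), ← h, Real.log_pow]
    norm_num
  refine ⟨fun x => bif x then Real.log (1 + 1 / b) / 2 else Real.log (1 + 1 / c) / 2, ?_, ?_, ?_⟩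
  · intro x y
    cases x <;> cases y <;> simp only [zz, cond_true, cond_false] <;> linarith
  · intro x
    cases x
    · exact (key c hc).1
    · exact (key b hb).1
  · intro x
    cases x
    · exact (key c hc).2
    · exact (key b hb).2

lemma sum_ty {d n : ℕ} (f : Bool → ℝ) :
    ∑ j : Fin d ⊕ Fin n, f (ty j) = d * f true + n * f false := by
  rw [Fintype.sum_sum_type]
  simp [ty]

lemma lower_main {d n k K M : ℕ} (hQ : 12 ≤ Q) (hd : (d : ℝ) = Q ^ 19) (hn : (n : ℝ) = Q ^ 20)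
    (hk : (k : ℝ) = Q ^ 16) (hK : (K : ℝ) = 2 * Q ^ 20) (hM : (M : ℝ) = Q ^ 20 / 3)
    (ha1 : 1 / 2 ≤ a) (ha2 : a ≤ 1) (hb : b = (2 - a) * Q) (hc : c = 1 / 3 - a / Q)
    (hc1 : 1 / 4 ≤ c) {α : Bool → ℝ}
    (hα : ∀ x y, Real.log (1 + 1 / zz a b c x y) = α x + α y) (hα0 : ∀ x, 0 ≤ α x)
    (hα2 : ∀ x, α x ≤ 2) (hE : 8 * Q ^ 20 * Real.exp (-(Q ^ 3 / 32000)) ≤ 1 / 4) :
    1 / 2 * Real.exp (Phi (fun p : (Fin d ⊕ Fin n) × (Fin d ⊕ Fin n) =>
      zz a b c (ty p.1) (ty p.2)) - 9 * Q ^ 36) ≤ #(tab (mar d n K M)) := by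
  have hQ0 : 0 < Q := by linarith
  have hb0 : Q ≤ b := by rw [hb]; nlinarith
  have hb1 : b ≤ 3 / 2 * Q := by rw [hb]; nlinarith
  have hb2 : b ≤ 2 * Q := by linarith
  have haQ : 0 ≤ a / Q := by positivity
  have hc2 : c ≤ 1 / 3 := by rw [hc]; linarith
  have hc3 : c ≤ 1 := by linarith
  have hapos : 0 < a := by linarith
  have hbpos : 0 < b := by linarith
  have hcpos : 0 < c := by linarith
  have hkn : k ≤ n := by
    have : (k : ℝ) ≤ n := by
      rw [hk, hn]; exact pow_le_pow_right₀ (by linarith) (by norm_num)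
    exact_mod_cast this
  obtain ⟨n', rfl⟩ : ∃ n', n = n' + k := ⟨n - k, by omega⟩
  set e : (Fin d ⊕ Fin n') ⊕ Fin k ≃ Fin d ⊕ Fin (n' + k) :=
    (Equiv.sumAssoc _ _ _).trans (Equiv.sumCongr (Equiv.refl _) finSumFinEquiv) with he
  have tyl : ∀ i : Fin d ⊕ Fin n', ty (e (Sum.inl i)) = ty i := by
    rintro (i | i) <;> simp [he, ty]
  have tyr : ∀ l : Fin k, ty (e (Sum.inr l)) = false := by
    intro l; simp [he, ty]
  have hrow : ∀ i : Fin d ⊕ Fin (n' + k), ∑ j : Fin d ⊕ Fin (n' + k), zz a b c (ty i) (ty j) =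
      mar d (n' + k) K M i := by
    rintro (i | i)
    · rw [sum_ty (fun y => zz a b c (ty (Sum.inl i)) y)]
      simp only [ty, mar, Sum.elim_inl, zz, hK]
      rw [hd, hn, hb]; ring
    · rw [sum_ty (fun y => zz a b c (ty (Sum.inr i)) y)]
      simp only [ty, mar, Sum.elim_inr, zz, hM]
      rw [hd, hn, hc]
      field_simp
      ring
  have hn'0 : (0 : ℝ) ≤ n' := Nat.cast_nonneg _
  have hn' : (n' : ℝ) ≤ Q ^ 20 := by
    rw [← hn]; push_cast; have : (0 : ℝ) ≤ k := Nat.cast_nonneg _; linarith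
  have hA : (Fintype.card (Fin d ⊕ Fin n') : ℝ) ≤ 2 * Q ^ 20 := by
    rw [Fintype.card_sum, Fintype.card_fin, Fintype.card_fin]
    push_cast
    rw [hd]
    have : Q ^ 19 ≤ Q ^ 20 := pow_le_pow_right₀ (by linarith) (by norm_num)
    linarith
  have hA0 : (0 : ℝ) ≤ Fintype.card (Fin d ⊕ Fin n') := Nat.cast_nonneg _
  have hlow := lower (A := Fin d ⊕ Fin n') (R := Fin k) (r := fun j => mar d (n' + k) K M (e j))
    (z := fun p => zz a b c (ty (e p.1)) (ty (e p.2)))
    (fun p => zz_pos hapos hbpos hcpos _ _) (fun i j => zz_sym _ _) (α := fun i => α (ty (e i)))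
    (fun i j => hα _ _) (fun i => hα0 _) (fun i => hα2 _)
    (fun i => (Equiv.sum_comp e (fun j => zz a b c (ty (e i)) (ty j))).trans (hrow (e i)))
    (Q ^ 12 / 20) (1 / (800 * Q ^ 9)) (20 * Q ^ 21) (by positivity) (by positivity)
    (fun i j => by
      apply one_div_le_one_div_of_le
      · have := zz_pos hapos hbpos hcpos (ty (e (Sum.inl i))) (ty (e (Sum.inl j)))
        positivity
      · have h1 := zz_le hQ ha2 hb2 hc3 (ty (e (Sum.inl i))) (ty (e (Sum.inl j)))
        have h2 : Q ≤ Q ^ 9 := le_self_pow₀ (by linarith) (by norm_num)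
        simp only at h1 ⊢
        linarith)
    (fun i => by
      simp only [tyl]
      rw [sum_ty (fun y => zz a b c (ty i) y + 8 * zz a b c (ty i) y ^ 2), hd]
      have p1 : Q ^ 20 = Q * Q ^ 19 := by ring
      have p2 : Q ^ 21 = Q ^ 2 * Q ^ 19 := by ring
      have p3 : 0 < Q ^ 19 := by positivity
      have ha3 : a + 8 * a ^ 2 ≤ 9 := by nlinarith
      have ha30 : 0 ≤ a + 8 * a ^ 2 := by positivity
      have hc4 : c + 8 * c ^ 2 ≤ 9 := by nlinarith
      have hc40 : 0 ≤ c + 8 * c ^ 2 := by positivity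
      have hb4 : b + 8 * b ^ 2 ≤ 3 / 2 * Q + 18 * Q ^ 2 := by nlinarith
      have m1 : (n' : ℝ) * (a + 8 * a ^ 2) ≤ Q ^ 20 * 9 :=
        mul_le_mul hn' ha3 ha30 (by positivity)
      have m2 : (n' : ℝ) * (c + 8 * c ^ 2) ≤ Q ^ 20 * 9 :=
        mul_le_mul hn' hc4 hc40 (by positivity)
      have m3 : Q ^ 19 * (b + 8 * b ^ 2) ≤ Q ^ 19 * (3 / 2 * Q + 18 * Q ^ 2) :=
        mul_le_mul_of_nonneg_left hb4 p3.le
      have m4 : Q ^ 19 * (a + 8 * a ^ 2) ≤ Q ^ 19 * 9 := mul_le_mul_of_nonneg_left ha3 p3.le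
      rcases i with i | i
      · simp only [ty, Sum.elim_inl, zz]
        nlinarith
      · simp only [ty, Sum.elim_inr, zz]
        nlinarith)
    (by
      have h1 : -(1 / (800 * Q ^ 9) * (Q ^ 12 / 20)) + (1 / (800 * Q ^ 9)) ^ 2 * (20 * Q ^ 21) =
          -(Q ^ 3 / 32000) := by
        field_simp
        ring
      rw [h1]
      refine le_trans ?_ hE
      apply mul_le_mul_of_nonneg_right _ (Real.exp_pos _).le
      linarith)
    (fun i l => by simp only [tyr]; exact zz_false ha2 hc3 _)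
    (fun i => by
      simp only [tyr]
      rw [sum_const, card_univ, Fintype.card_fin, nsmul_eq_mul, hk]
      have h1 := zz_ge (b := b) (show 1 / 4 ≤ a by linarith) hc1 (ty (e (Sum.inl i)))
      have h2 : Q ^ 12 ≤ Q ^ 16 := pow_le_pow_right₀ (by linarith) (by norm_num)
      have h3 : 0 < Q ^ 16 := by positivity
      nlinarith)
    (by
      simp only [tyr, sum_const, card_univ, Fintype.card_fin, nsmul_eq_mul, zz, hk]
      have h1 : (Fintype.card (Fin d ⊕ Fin n') : ℝ) * (Q ^ 12 / 20) ≤ 2 * Q ^ 20 * (Q ^ 12 / 20) :=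
        mul_le_mul_of_nonneg_right hA (by positivity)
      have h2 : Q ^ 16 * (Q ^ 16 * (1 / 4)) ≤ Q ^ 16 * (Q ^ 16 * c) := by gcongr
      refine h1.trans (le_trans ?_ h2)
      have h3 : 0 < Q ^ 32 := by positivity
      have h4 : 2 * Q ^ 20 * (Q ^ 12 / 20) = Q ^ 32 / 10 := by ring
      have h5 : Q ^ 16 * (Q ^ 16 * (1 / 4)) = Q ^ 32 / 4 := by ring
      rw [h4, h5]; linarith)
  rw [card_tab_equiv e (mar d (n' + k) K M), Phi_equiv e (fun p => zz a b c (ty p.1) (ty p.2)),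
    Fintype.card_fin, hk] at hlow
  refine le_trans ?_ hlow
  apply mul_le_mul_of_nonneg_left _ (by norm_num)
  apply Real.exp_le_exp.2
  have h1 : (Fintype.card (Fin d ⊕ Fin n') : ℝ) * Q ^ 16 ≤ 2 * Q ^ 20 * Q ^ 16 :=
    mul_le_mul_of_nonneg_right hA (by positivity)
  have h2 : 4 * (Q ^ 12 / 20) * (Fintype.card (Fin d ⊕ Fin n') : ℝ) ≤
      4 * (Q ^ 12 / 20) * (2 * Q ^ 20) := mul_le_mul_of_nonneg_left hA (by positivity)
  have h3 : 3 * Q ^ 32 ≤ Q ^ 36 := by
    have : Q ^ 36 = Q ^ 4 * Q ^ 32 := by ring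
    rw [this]
    have h4 : (12 : ℝ) ^ 4 ≤ Q ^ 4 := pow_le_pow_left₀ (by norm_num) hQ 4
    have h5 : 0 < Q ^ 32 := by positivity
    nlinarith
  have h4 : 0 < Q ^ 32 := by positivity
  nlinarith

end

end Pool.Agent.R422.CT
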