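import Pool.Agent.R422.CT.Basic

set_option autoImplicit false

/-!
# Tables with given margins: upper and lower bounds for their number
-/

namespace Pool.Agent.R422.CT

open Finset

section

variable {I : Type*} [Fintype I] [DecidableEq I]

/-- tables with margins `r` for the rows and for the columns -/
def tab (r : I → ℕ) : Finset (I × I → ℕ) :=
  (box (I × I) (∑ i, r i + 1)).filter fun X =>
    (∀ i, ∑ j, X (i, j) = r i) ∧ ∀ j, ∑ i, X (i, j) = r j

lemma mem_tab {r : I → ℕ} {X : I × I → ℕ} :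
    X ∈ tab r ↔ (∀ i, ∑ j, X (i, j) = r i) ∧ ∀ j, ∑ i, X (i, j) = r j := by
  rw [tab, mem_filter, mem_box, and_iff_right_iff_imp]
  rintro ⟨h1, -⟩ ⟨i, j⟩
  have h2 : X (i, j) ≤ ∑ j, X (i, j) :=
    single_le_sum (f := fun j => X (i, j)) (fun _ _ => Nat.zero_le _) (mem_univ j)
  have h3 : r i ≤ ∑ i, r i := single_le_sum (fun _ _ => Nat.zero_le _) (mem_univ i)
  have := h1 i
  omega

/-- entropy of the geometric law -/
noncomputable def hh (z : ℝ) : ℝ := Real.log (1 + z) + z * Real.log (1 + 1 / z)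

/-- total entropy -/
noncomputable def Phi (z : I × I → ℝ) : ℝ := ∑ p, hh (z p)

lemma W_margins {z : I × I → ℝ} (hz : ∀ p, 0 < z p) {α : I → ℝ}
    (hα : ∀ i j, Real.log (1 + 1 / z (i, j)) = α i + α j) (X : I × I → ℕ) :
    W z X = Real.exp (-(∑ p, Real.log (1 + z p) + ∑ i, α i * (∑ j, (X (i, j) : ℝ)) +
      ∑ j, α j * (∑ i, (X (i, j) : ℝ)))) := by
  have h1 : W z X = ∏ p, Real.exp (-(Real.log (1 + z p) + X p * Real.log (1 + 1 / z p))) :=
    prod_congr rfl fun p _ => w_eq (hz p) _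
  rw [h1, ← Real.exp_sum]
  congr 1
  rw [sum_neg_distrib, sum_add_distrib]
  have h2 : ∑ p, (X p : ℝ) * Real.log (1 + 1 / z p) =
      ∑ i, α i * (∑ j, (X (i, j) : ℝ)) + ∑ j, α j * (∑ i, (X (i, j) : ℝ)) := by
    rw [Fintype.sum_prod_type]
    have h3 : ∑ j, α j * (∑ i, (X (i, j) : ℝ)) = ∑ i, ∑ j, α j * (X (i, j) : ℝ) := by
      simp_rw [mul_sum]; exact sum_comm
    rw [h3, ← sum_add_distrib]
    refine sum_congr rfl fun i _ => ?_
    rw [mul_sum, ← sum_add_distrib]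
    refine sum_congr rfl fun j _ => ?_
    rw [hα]; ring
  rw [h2]; ring

lemma Phi_eq {z : I × I → ℝ} {α : I → ℝ}
    (hα : ∀ i j, Real.log (1 + 1 / z (i, j)) = α i + α j) :
    Phi z = ∑ p, Real.log (1 + z p) + ∑ i, α i * (∑ j, z (i, j)) +
      ∑ j, α j * (∑ i, z (i, j)) := by
  have h1 : Phi z = ∑ p, Real.log (1 + z p) + ∑ p, z p * Real.log (1 + 1 / z p) := by
    rw [← sum_add_distrib]; rfl
  rw [h1, add_assoc]
  congr 1
  rw [Fintype.sum_prod_type]
  have h3 : ∑ j, α j * (∑ i, z (i, j)) = ∑ i, ∑ j, α j * z (i, j) := by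
    simp_rw [mul_sum]; exact sum_comm
  rw [h3, ← sum_add_distrib]
  refine sum_congr rfl fun i _ => ?_
  rw [mul_sum, ← sum_add_distrib]
  refine sum_congr rfl fun j _ => ?_
  rw [hα]; ring

lemma W_tab {r : I → ℕ} {z : I × I → ℝ} (hz : ∀ p, 0 < z p) {α : I → ℝ}
    (hα : ∀ i j, Real.log (1 + 1 / z (i, j)) = α i + α j) (hr : ∀ i, ∑ j, z (i, j) = r i)
    (hc : ∀ j, ∑ i, z (i, j) = r j) {X : I × I → ℕ} (hX : X ∈ tab r) :
    W z X = Real.exp (-Phi z) := by
  obtain ⟨h1, h2⟩ := mem_tab.1 hX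
  rw [W_margins hz hα, Phi_eq hα]
  congr 2
  have e1 : ∀ i, ∑ j, (X (i, j) : ℝ) = r i := fun i => by exact_mod_cast h1 i
  have e2 : ∀ j, ∑ i, (X (i, j) : ℝ) = r j := fun j => by exact_mod_cast h2 j
  simp_rw [e1, e2, hr, hc]

/-- many bad rows are rare -/
lemma upper {r : I → ℕ} {z : I × I → ℝ} (hz : ∀ p, 0 < z p)
    (hW : ∀ X ∈ tab r, W z X = Real.exp (-Phi z)) (Bg Sm : Finset I) (τ s κ : ℝ) (hs0 : 0 ≤ s)
    (hκ0 : 0 ≤ κ) (hs : ∀ i ∈ Bg, ∀ j ∈ Sm, s ≤ 1 / (4 * (1 + z (i, j))))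
    (hκ : ∀ i ∈ Bg, -(s * τ) + s ^ 2 * ∑ j ∈ Sm, (z (i, j) + 8 * z (i, j) ^ 2) ≤ -κ) (j₀ : ℝ) :
    (#((tab r).filter fun X =>
      j₀ ≤ #(Bg.filter fun i => τ ≤ ∑ j ∈ Sm, ((X (i, j) : ℝ) - z (i, j)))) : ℝ) ≤
      2 ^ #Bg * Real.exp (Phi z - j₀ * κ) := by
  classical
  set bad : (I × I → ℕ) → I → Prop := fun X i => τ ≤ ∑ j ∈ Sm, ((X (i, j) : ℝ) - z (i, j))
    with hbad
  set PJ : Finset (Finset I) := Bg.powerset.filter fun J => j₀ ≤ (#J : ℝ) with hPJ
  have h1 : ((tab r).filter fun X => j₀ ≤ (#(Bg.filter fun i => bad X i) : ℝ)) ⊆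
      PJ.biUnion fun J => (tab r).filter fun X => ∀ i ∈ J, bad X i := by
    intro X hX
    rw [mem_filter] at hX
    rw [mem_biUnion]
    refine ⟨Bg.filter fun i => bad X i, ?_, ?_⟩
    · rw [hPJ, mem_filter, mem_powerset]
      exact ⟨filter_subset _ _, hX.2⟩
    · rw [mem_filter]
      exact ⟨hX.1, fun i hi => (mem_filter.1 hi).2⟩
  have h2 : ∀ J ∈ PJ, (#((tab r).filter fun X => ∀ i ∈ J, bad X i) : ℝ) ≤
      Real.exp (Phi z - j₀ * κ) := by
    intro J hJ
    rw [hPJ, mem_filter, mem_powerset] at hJ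
    set F := (tab r).filter fun X => ∀ i ∈ J, bad X i with hF
    have h3 : ∑ X ∈ F, W z X = #F * Real.exp (-Phi z) := by
      rw [sum_congr rfl fun X hX => hW X (mem_filter.1 hX).1, sum_const, nsmul_eq_mul]
    have h4 := tail hz (J ×ˢ Sm) s (s * (#J * τ)) (∑ p ∈ J ×ˢ Sm, (z p + 8 * z p ^ 2))
      (fun p hp => by
        rw [mem_product] at hp
        rw [abs_of_nonneg hs0]
        exact hs p.1 (hJ.1 hp.1) p.2 hp.2) le_rfl (∑ i, r i + 1) F
      (fun X hX => (mem_filter.1 (mem_filter.1 hX).1).1)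
      (fun X hX => by
        apply mul_le_mul_of_nonneg_left _ hs0
        rw [sum_product, ← nsmul_eq_mul]
        exact card_nsmul_le_sum _ _ _ fun i hi => (mem_filter.1 hX).2 i hi)
    rw [h3] at h4
    have h5 : -(s * (#J * τ)) + s ^ 2 * ∑ p ∈ J ×ˢ Sm, (z p + 8 * z p ^ 2) ≤ -(j₀ * κ) := by
      rw [sum_product, mul_sum]
      have h6 : ∑ i ∈ J, (-(s * τ) + s ^ 2 * ∑ j ∈ Sm, (z (i, j) + 8 * z (i, j) ^ 2)) ≤
          ∑ i ∈ J, -κ := sum_le_sum fun i hi => hκ i (hJ.1 hi)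
      rw [sum_add_distrib, sum_const, sum_const, nsmul_eq_mul, nsmul_eq_mul] at h6
      have h7 := mul_le_mul_of_nonneg_right hJ.2 hκ0
      linarith
    have h8 := h4.trans (Real.exp_le_exp.2 h5)
    calc (#F : ℝ) = #F * Real.exp (-Phi z) * Real.exp (Phi z) := by
          rw [mul_assoc, ← Real.exp_add]; simp
      _ ≤ Real.exp (-(j₀ * κ)) * Real.exp (Phi z) :=
          mul_le_mul_of_nonneg_right h8 (Real.exp_pos _).le
      _ = Real.exp (Phi z - j₀ * κ) := by rw [← Real.exp_add]; ring_nf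
  have h9 : (#((tab r).filter fun X => j₀ ≤ (#(Bg.filter fun i => bad X i) : ℝ)) : ℝ) ≤
      ∑ J ∈ PJ, (#((tab r).filter fun X => ∀ i ∈ J, bad X i) : ℝ) := by
    exact_mod_cast (card_le_card h1).trans card_biUnion_le
  refine h9.trans ((sum_le_sum h2).trans ?_)
  rw [sum_const, nsmul_eq_mul]
  apply mul_le_mul_of_nonneg_right _ (Real.exp_pos _).le
  have : #PJ ≤ 2 ^ #Bg := by
    rw [← card_powerset]; exact card_le_card (filter_subset _ _)
  exact_mod_cast this

/-- the weights of tables with nearly the right margins -/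
lemma lowerMass {z : I × I → ℝ} (hz : ∀ p, 0 < z p) (t s V : ℝ) (hs0 : 0 ≤ s)
    (hs : ∀ p, s ≤ 1 / (4 * (1 + z p))) (hVr : ∀ i, ∑ j, (z (i, j) + 8 * z (i, j) ^ 2) ≤ V)
    (hVc : ∀ j, ∑ i, (z (i, j) + 8 * z (i, j) ^ 2) ≤ V)
    (hE : 4 * Fintype.card I * Real.exp (-(s * t) + s ^ 2 * V) ≤ 1 / 4) :
    ∃ K, 1 / 2 ≤ ∑ D ∈ (box (I × I) K).filter (fun D =>
      (∀ i, |∑ j, ((D (i, j) : ℝ) - z (i, j))| ≤ t) ∧
        ∀ j, |∑ i, ((D (i, j) : ℝ) - z (i, j))| ≤ t), W z D := by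
  classical
  obtain ⟨K, hK⟩ := ((mass_box hz).eventually (lt_mem_nhds (show (3 / 4 : ℝ) < 1 by norm_num))).exists
  refine ⟨K, ?_⟩
  have key : ∀ J : Finset (I × I), ∑ p ∈ J, (z p + 8 * z p ^ 2) ≤ V →
      ∑ D ∈ box (I × I) K, (if t < |∑ p ∈ J, ((D p : ℝ) - z p)| then W z D else 0) ≤
        2 * Real.exp (-(s * t) + s ^ 2 * V) := by
    intro J hJ
    rw [← sum_filter]
    have h1 : ((box (I × I) K).filter fun D => t < |∑ p ∈ J, ((D p : ℝ) - z p)|) ⊆
        ((box (I × I) K).filter fun D => t ≤ ∑ p ∈ J, ((D p : ℝ) - z p)) ∪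
        ((box (I × I) K).filter fun D => t ≤ -∑ p ∈ J, ((D p : ℝ) - z p)) := by
      intro D hD
      rw [mem_filter] at hD
      rw [mem_union, mem_filter, mem_filter]
      rcases lt_abs.1 hD.2 with h | h
      · exact Or.inl ⟨hD.1, h.le⟩
      · exact Or.inr ⟨hD.1, h.le⟩
    have h2 := sum_le_sum_of_subset_of_nonneg (f := fun D => W z D) h1
      (fun D _ _ => W_nonneg hz D)
    have h3 : ∑ D ∈ ((box (I × I) K).filter fun D => t ≤ ∑ p ∈ J, ((D p : ℝ) - z p)) ∪
        ((box (I × I) K).filter fun D => t ≤ -∑ p ∈ J, ((D p : ℝ) - z p)), W z D ≤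
        ∑ D ∈ ((box (I × I) K).filter fun D => t ≤ ∑ p ∈ J, ((D p : ℝ) - z p)), W z D +
        ∑ D ∈ ((box (I × I) K).filter fun D => t ≤ -∑ p ∈ J, ((D p : ℝ) - z p)), W z D := by
      rw [← sum_union_inter]
      exact le_add_of_nonneg_right (sum_nonneg fun D _ => W_nonneg hz D)
    have h4 := tail hz J s (s * t) V (fun p _ => by rw [abs_of_nonneg hs0]; exact hs p) hJ K
      ((box (I × I) K).filter fun D => t ≤ ∑ p ∈ J, ((D p : ℝ) - z p)) (filter_subset _ _)
      (fun X hX => mul_le_mul_of_nonneg_left (mem_filter.1 hX).2 hs0)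
    have h5 := tail hz J (-s) (s * t) V
      (fun p _ => by rw [abs_neg, abs_of_nonneg hs0]; exact hs p) hJ K
      ((box (I × I) K).filter fun D => t ≤ -∑ p ∈ J, ((D p : ℝ) - z p)) (filter_subset _ _)
      (fun X hX => by
        have := mul_le_mul_of_nonneg_left (mem_filter.1 hX).2 hs0
        linarith)
    rw [neg_sq] at h5
    linarith
  have hrow : ∀ (f : I × I → ℝ) (i : I), ∑ p ∈ ({i} : Finset I) ×ˢ univ, f p = ∑ j, f (i, j) := by
    intro f i; rw [sum_product, sum_singleton]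
  have hcol : ∀ (f : I × I → ℝ) (j : I), ∑ p ∈ (univ : Finset I) ×ˢ {j}, f p = ∑ i, f (i, j) := by
    intro f j
    rw [sum_product]
    exact sum_congr rfl fun i _ => sum_singleton _ _
  have h1 : ∀ D ∈ box (I × I) K, W z D ≤ (if (∀ i, |∑ j, ((D (i, j) : ℝ) - z (i, j))| ≤ t) ∧
        (∀ j, |∑ i, ((D (i, j) : ℝ) - z (i, j))| ≤ t) then W z D else 0) +
      (∑ i, (if t < |∑ j, ((D (i, j) : ℝ) - z (i, j))| then W z D else 0) +
      ∑ j, (if t < |∑ i, ((D (i, j) : ℝ) - z (i, j))| then W z D else 0)) := by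
    intro D _
    have hW := W_nonneg hz D
    have n1 : 0 ≤ ∑ i, (if t < |∑ j, ((D (i, j) : ℝ) - z (i, j))| then W z D else 0) :=
      sum_nonneg fun i _ => by split_ifs <;> simp [hW]
    have n2 : 0 ≤ ∑ j, (if t < |∑ i, ((D (i, j) : ℝ) - z (i, j))| then W z D else 0) :=
      sum_nonneg fun i _ => by split_ifs <;> simp [hW]
    by_cases h : (∀ i, |∑ j, ((D (i, j) : ℝ) - z (i, j))| ≤ t) ∧
        (∀ j, |∑ i, ((D (i, j) : ℝ) - z (i, j))| ≤ t)
    · rw [if_pos h]; linarith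
    · rw [if_neg h]
      rw [not_and_or] at h
      rcases h with h | h
      · push Not at h
        obtain ⟨i, hi⟩ := h
        have := single_le_sum (f := fun i =>
          (if t < |∑ j, ((D (i, j) : ℝ) - z (i, j))| then W z D else 0))
          (fun i _ => by split_ifs <;> simp [hW]) (mem_univ i)
        simp only [if_pos hi] at this
        linarith
      · push Not at h
        obtain ⟨i, hi⟩ := h
        have := single_le_sum (f := fun j =>
          (if t < |∑ i, ((D (i, j) : ℝ) - z (i, j))| then W z D else 0))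
          (fun i _ => by split_ifs <;> simp [hW]) (mem_univ i)
        simp only [if_pos hi] at this
        linarith
  have h2 := sum_le_sum h1
  rw [sum_add_distrib, sum_add_distrib, sum_comm, ← sum_filter] at h2
  have h3 : ∑ i, ∑ D ∈ box (I × I) K,
      (if t < |∑ j, ((D (i, j) : ℝ) - z (i, j))| then W z D else 0) ≤
      ∑ _i : I, 2 * Real.exp (-(s * t) + s ^ 2 * V) := by
    refine sum_le_sum fun i _ => ?_
    have := key ({i} ×ˢ univ) (by rw [hrow (fun p => z p + 8 * z p ^ 2)]; exact hVr i)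
    refine le_trans (le_of_eq ?_) this
    refine sum_congr rfl fun D _ => ?_
    rw [hrow (fun p => (D p : ℝ) - z p)]
  have h4 : ∑ D ∈ box (I × I) K, ∑ j,
      (if t < |∑ i, ((D (i, j) : ℝ) - z (i, j))| then W z D else 0) ≤
      ∑ _i : I, 2 * Real.exp (-(s * t) + s ^ 2 * V) := by
    rw [sum_comm]
    refine sum_le_sum fun i _ => ?_
    have := key (univ ×ˢ {i}) (by rw [hcol (fun p => z p + 8 * z p ^ 2)]; exact hVc i)
    refine le_trans (le_of_eq ?_) this
    refine sum_congr rfl fun D _ => ?_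
    rw [hcol (fun p => (D p : ℝ) - z p)]
  rw [sum_const, nsmul_eq_mul, card_univ] at h3 h4
  linarith

lemma lowerCard {z : I × I → ℝ} (hz : ∀ p, 0 < z p) {α : I → ℝ}
    (hα : ∀ i j, Real.log (1 + 1 / z (i, j)) = α i + α j) (hα0 : ∀ i, 0 ≤ α i)
    (hα2 : ∀ i, α i ≤ 2) (t : ℝ) (ht : 0 ≤ t) (G : Finset (I × I → ℕ))
    (hG : 1 / 2 ≤ ∑ D ∈ G, W z D) (hGr : ∀ D ∈ G, ∀ i, |∑ j, ((D (i, j) : ℝ) - z (i, j))| ≤ t)
    (hGc : ∀ D ∈ G, ∀ j, |∑ i, ((D (i, j) : ℝ) - z (i, j))| ≤ t) :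
    1 / 2 * Real.exp (Phi z - 4 * t * Fintype.card I) ≤ #G := by
  have h1 : ∀ D ∈ G, W z D ≤ Real.exp (-(Phi z - 4 * t * Fintype.card I)) := by
    intro D hD
    rw [W_margins hz hα, Phi_eq hα]
    apply Real.exp_le_exp.2
    have h2 : ∑ i, α i * (∑ j, z (i, j)) - ∑ i, α i * (∑ j, (D (i, j) : ℝ)) ≤
        ∑ _i : I, 2 * t := by
      rw [← sum_sub_distrib]
      refine sum_le_sum fun i _ => ?_
      have h3 := (abs_le.1 (hGr D hD i)).1
      rw [sum_sub_distrib] at h3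
      rw [← mul_sub]
      have h4 : α i * (∑ j, z (i, j) - ∑ j, (D (i, j) : ℝ)) ≤ α i * t :=
        mul_le_mul_of_nonneg_left (by linarith) (hα0 i)
      have h5 := mul_le_mul_of_nonneg_right (hα2 i) ht
      linarith
    have h2' : ∑ i, α i * (∑ j, z (j, i)) - ∑ i, α i * (∑ j, (D (j, i) : ℝ)) ≤
        ∑ _i : I, 2 * t := by
      rw [← sum_sub_distrib]
      refine sum_le_sum fun i _ => ?_
      have h3 := (abs_le.1 (hGc D hD i)).1
      rw [sum_sub_distrib] at h3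
      rw [← mul_sub]
      have h4 : α i * (∑ j, z (j, i) - ∑ j, (D (j, i) : ℝ)) ≤ α i * t :=
        mul_le_mul_of_nonneg_left (by linarith) (hα0 i)
      have h5 := mul_le_mul_of_nonneg_right (hα2 i) ht
      linarith
    rw [sum_const, nsmul_eq_mul, card_univ] at h2 h2'
    linarith
  have h2 := hG.trans (sum_le_sum h1)
  rw [sum_const, nsmul_eq_mul, Real.exp_neg, ← div_eq_mul_inv,
    le_div_iff₀ (Real.exp_pos _)] at h2
  exact h2

end

section

variable {A R : Type*} [Fintype A] [DecidableEq A] [Fintype R] [DecidableEq R]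

lemma extend (r : A ⊕ R → ℕ) (D : A × A → ℕ) (hrow : ∀ i, ∑ j, D (i, j) ≤ r (Sum.inl i))
    (hcol : ∀ j, ∑ i, D (i, j) ≤ r (Sum.inl j))
    (hT : ∑ i, (r (Sum.inl i) - ∑ j, D (i, j)) ≤ ∑ l, r (Sum.inr l)) :
    ∃ X ∈ tab r, ∀ i j, X (Sum.inl i, Sum.inl j) = D (i, j) := by
  set T : ℕ := ∑ i, (r (Sum.inl i) - ∑ j, D (i, j)) with hTdef
  have h1 : T + ∑ i, ∑ j, D (i, j) = ∑ i, r (Sum.inl i) := by
    rw [hTdef, ← sum_add_distrib]
    exact sum_congr rfl fun i _ => Nat.sub_add_cancel (hrow i)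
  have h2 : ∑ j, (r (Sum.inl j) - ∑ i, D (i, j)) = T := by
    have h3 : ∑ j, (r (Sum.inl j) - ∑ i, D (i, j)) + ∑ j, ∑ i, D (i, j) =
        ∑ i, r (Sum.inl i) := by
      rw [← sum_add_distrib]
      exact sum_congr rfl fun i _ => Nat.sub_add_cancel (hcol i)
    rw [sum_comm (f := fun j i => D (i, j))] at h3
    omega
  obtain ⟨Y, hY1, hY2⟩ := transport (P := Bool) (Q := R) (∑ l, r (Sum.inr l))
    (fun b => if b then T else ∑ l, r (Sum.inr l) - T) (fun l => r (Sum.inr l))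
    (by simp; omega) rfl
  have hYt : ∑ l, Y true l = T := by simpa using hY1 true
  have hYf : ∑ l, Y false l = ∑ l, r (Sum.inr l) - T := by simpa using hY1 false
  have hYl : ∀ l, Y true l + Y false l = r (Sum.inr l) := fun l => by simpa using hY2 l
  obtain ⟨X1, hX11, hX12⟩ := transport T (fun i => r (Sum.inl i) - ∑ j, D (i, j))
    (fun l => Y true l) rfl hYt
  obtain ⟨X2, hX21, hX22⟩ := transport T (fun l => Y true l)
    (fun j => r (Sum.inl j) - ∑ i, D (i, j)) hYt h2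
  obtain ⟨X3, hX31, hX32⟩ := transport (∑ l, r (Sum.inr l) - T) (fun l => Y false l)
    (fun l => Y false l) hYf hYf
  refine ⟨fun p => Sum.elim (fun i => Sum.elim (fun j => D (i, j)) (fun l => X1 i l) p.2)
    (fun l => Sum.elim (fun j => X2 l j) (fun l' => X3 l l') p.2) p.1, ?_, fun i j => rfl⟩
  rw [mem_tab]
  constructor
  · rintro (i | l)
    · simp only [Fintype.sum_sum_type, Sum.elim_inl, Sum.elim_inr]
      rw [hX11]
      have := hrow i
      omega
    · simp only [Fintype.sum_sum_type, Sum.elim_inl, Sum.elim_inr]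
      rw [hX21, hX31, hYl]
  · rintro (i | l)
    · simp only [Fintype.sum_sum_type, Sum.elim_inl, Sum.elim_inr]
      rw [hX22]
      have := hcol i
      omega
    · simp only [Fintype.sum_sum_type, Sum.elim_inl, Sum.elim_inr]
      rw [hX12, hX32, hYl]

lemma hh_le {z : ℝ} (h0 : 0 < z) (h1 : z ≤ 1) : hh z ≤ 2 := by
  unfold hh
  have e1 : Real.log (1 + z) ≤ z := by
    have := Real.log_le_sub_one_of_pos (show 0 < 1 + z by positivity)
    linarith
  have e2 : Real.log (1 + 1 / z) ≤ 1 / z := by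
    have := Real.log_le_sub_one_of_pos (show 0 < 1 + 1 / z by positivity)
    linarith
  have e3 : z * Real.log (1 + 1 / z) ≤ 1 := by
    calc z * Real.log (1 + 1 / z) ≤ z * (1 / z) := mul_le_mul_of_nonneg_left e2 h0.le
      _ = 1 := by field_simp
  linarith

lemma lower {r : A ⊕ R → ℕ} {z : (A ⊕ R) × (A ⊕ R) → ℝ} (hz : ∀ p, 0 < z p)
    (hsym : ∀ i j, z (i, j) = z (j, i)) {α : A ⊕ R → ℝ}
    (hα : ∀ i j, Real.log (1 + 1 / z (i, j)) = α i + α j) (hα0 : ∀ i, 0 ≤ α i)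
    (hα2 : ∀ i, α i ≤ 2) (hr : ∀ i, ∑ j, z (i, j) = r i) (t s V : ℝ) (ht : 0 ≤ t) (hs0 : 0 ≤ s)
    (hs : ∀ i j : A, s ≤ 1 / (4 * (1 + z (Sum.inl i, Sum.inl j))))
    (hV : ∀ i : A, ∑ j : A, (z (Sum.inl i, Sum.inl j) + 8 * z (Sum.inl i, Sum.inl j) ^ 2) ≤ V)
    (hE : 4 * Fintype.card A * Real.exp (-(s * t) + s ^ 2 * V) ≤ 1 / 4)
    (h1 : ∀ i l, z (i, Sum.inr l) ≤ 1)
    (h2 : ∀ i : A, t ≤ ∑ l : R, z (Sum.inl i, Sum.inr l))
    (h3 : Fintype.card A * t ≤ ∑ l : R, ∑ l' : R, z (Sum.inr l, Sum.inr l')) :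
    1 / 2 * Real.exp (Phi z - (2 * (2 * (Fintype.card A * Fintype.card R) + Fintype.card R ^ 2) +
      4 * t * Fintype.card A)) ≤ #(tab r) := by
  classical
  set zA : A × A → ℝ := fun p => z (Sum.inl p.1, Sum.inl p.2) with hzA
  obtain ⟨K, hK⟩ := lowerMass (z := zA) (fun p => hz _) t s V hs0 (fun p => hs _ _) hV
    (fun j => by
      refine le_trans (le_of_eq ?_) (hV j)
      refine sum_congr rfl fun i _ => ?_
      simp only [hzA]
      rw [hsym (Sum.inl i) (Sum.inl j)]) hE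
  set G := (box (A × A) K).filter (fun D =>
      (∀ i, |∑ j, ((D (i, j) : ℝ) - zA (i, j))| ≤ t) ∧
        ∀ j, |∑ i, ((D (i, j) : ℝ) - zA (i, j))| ≤ t) with hG
  have h4 := lowerCard (z := zA) (fun p => hz _) (α := fun i => α (Sum.inl i))
    (fun i j => hα _ _) (fun i => hα0 _) (fun i => hα2 _) t ht G hK
    (fun D hD => (mem_filter.1 hD).2.1) (fun D hD => (mem_filter.1 hD).2.2)
  -- every element of `G` extends
  have h5 : #G ≤ #(tab r) := by
    apply card_le_card_of_surjOn (fun X : (A ⊕ R) × (A ⊕ R) → ℕ =>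
      fun p : A × A => X (Sum.inl p.1, Sum.inl p.2))
    intro D hD
    rw [mem_coe] at hD
    obtain ⟨hDr, hDc⟩ := (mem_filter.1 hD).2
    have rowA : ∀ i : A, ∑ j : A, z (Sum.inl i, Sum.inl j) + ∑ l : R, z (Sum.inl i, Sum.inr l) =
        r (Sum.inl i) := by
      intro i
      rw [← hr, Fintype.sum_sum_type]
    have b1 : ∀ i : A, ∑ j, (D (i, j) : ℝ) ≤ r (Sum.inl i) := by
      intro i
      have := (abs_le.1 (hDr i)).2
      rw [sum_sub_distrib] at this
      have e1 := rowA i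
      have e2 := h2 i
      simp only [hzA] at this
      linarith
    have b2 : ∀ j : A, ∑ i, (D (i, j) : ℝ) ≤ r (Sum.inl j) := by
      intro j
      have := (abs_le.1 (hDc j)).2
      rw [sum_sub_distrib] at this
      have e1 := rowA j
      have e2 := h2 j
      have e3 : ∑ i : A, zA (i, j) = ∑ i : A, z (Sum.inl j, Sum.inl i) :=
        sum_congr rfl fun i _ => hsym _ _
      linarith
    have b1' : ∀ i : A, ∑ j, D (i, j) ≤ r (Sum.inl i) := fun i => by exact_mod_cast b1 i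
    have b2' : ∀ j : A, ∑ i, D (i, j) ≤ r (Sum.inl j) := fun i => by exact_mod_cast b2 i
    obtain ⟨X, hX, hXD⟩ := extend r D b1' b2' (by
      have e1 : ((∑ i, (r (Sum.inl i) - ∑ j, D (i, j)) : ℕ) : ℝ) ≤
          ((∑ l, r (Sum.inr l) : ℕ) : ℝ) := by
        push_cast
        have e2 : ∀ i, ((r (Sum.inl i) - ∑ j, D (i, j) : ℕ) : ℝ) ≤
            ∑ l : R, z (Sum.inl i, Sum.inr l) + t := by
          intro i
          rw [Nat.cast_sub (b1' i)]
          push_cast
          have := (abs_le.1 (hDr i)).1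
          rw [sum_sub_distrib] at this
          have e1 := rowA i
          simp only [hzA] at this
          linarith
        refine (sum_le_sum fun i _ => e2 i).trans ?_
        rw [sum_add_distrib, sum_const, nsmul_eq_mul, card_univ, sum_comm]
        have e3 : ∀ l : R, ∑ i : A, z (Sum.inl i, Sum.inr l) + ∑ l' : R, z (Sum.inr l, Sum.inr l') =
            r (Sum.inr l) := by
          intro l
          rw [← hr, Fintype.sum_sum_type]
          congr 1
          exact sum_congr rfl fun i _ => hsym _ _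
        have e4 : ∑ l : R, (∑ i : A, z (Sum.inl i, Sum.inr l) +
            ∑ l' : R, z (Sum.inr l, Sum.inr l')) = ∑ l : R, (r (Sum.inr l) : ℝ) :=
          sum_congr rfl fun l _ => e3 l
        rw [sum_add_distrib] at e4
        linarith
      exact_mod_cast e1)
    exact ⟨X, mem_coe.2 hX, funext fun p => hXD p.1 p.2⟩
  -- compare the entropies
  have h6 : Phi z ≤ Phi zA +
      2 * (2 * (Fintype.card A * Fintype.card R) + Fintype.card R ^ 2) := by
    have e1 : Phi z = Phi zA + ∑ i : A, ∑ l : R, hh (z (Sum.inl i, Sum.inr l)) +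
        (∑ l : R, ∑ i : A, hh (z (Sum.inr l, Sum.inl i)) +
          ∑ l : R, ∑ l' : R, hh (z (Sum.inr l, Sum.inr l'))) := by
      unfold Phi
      rw [Fintype.sum_prod_type, Fintype.sum_prod_type, Fintype.sum_sum_type]
      simp only [Fintype.sum_sum_type, sum_add_distrib]
      rfl
    have b1 : ∑ i : A, ∑ l : R, hh (z (Sum.inl i, Sum.inr l)) ≤
        2 * (Fintype.card A * Fintype.card R) := by
      calc ∑ i : A, ∑ l : R, hh (z (Sum.inl i, Sum.inr l)) ≤ ∑ _i : A, ∑ _l : R, (2 : ℝ) :=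
            sum_le_sum fun i _ => sum_le_sum fun l _ => hh_le (hz _) (h1 _ _)
        _ = 2 * (Fintype.card A * Fintype.card R) := by
            simp only [sum_const, card_univ, nsmul_eq_mul]; ring
    have b2 : ∑ l : R, ∑ i : A, hh (z (Sum.inr l, Sum.inl i)) ≤
        2 * (Fintype.card A * Fintype.card R) := by
      calc ∑ l : R, ∑ i : A, hh (z (Sum.inr l, Sum.inl i)) ≤ ∑ _l : R, ∑ _i : A, (2 : ℝ) :=
            sum_le_sum fun l _ => sum_le_sum fun i _ => hh_le (hz _) (by rw [hsym]; exact h1 _ _)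
        _ = 2 * (Fintype.card A * Fintype.card R) := by
            simp only [sum_const, card_univ, nsmul_eq_mul]; ring
    have b3 : ∑ l : R, ∑ l' : R, hh (z (Sum.inr l, Sum.inr l')) ≤
        2 * (Fintype.card R ^ 2 : ℝ) := by
      calc ∑ l : R, ∑ l' : R, hh (z (Sum.inr l, Sum.inr l')) ≤ ∑ _l : R, ∑ _l' : R, (2 : ℝ) :=
            sum_le_sum fun l _ => sum_le_sum fun l' _ => hh_le (hz _) (h1 _ _)
        _ = 2 * (Fintype.card R ^ 2 : ℝ) := by
            simp only [sum_const, card_univ, nsmul_eq_mul]; ring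
    linarith
  calc 1 / 2 * Real.exp (Phi z - (2 * (2 * (Fintype.card A * Fintype.card R) +
        Fintype.card R ^ 2) + 4 * t * Fintype.card A))
      ≤ 1 / 2 * Real.exp (Phi zA - 4 * t * Fintype.card A) := by
        apply mul_le_mul_of_nonneg_left _ (by norm_num)
        apply Real.exp_le_exp.2
        linarith
    _ ≤ #G := h4
    _ ≤ #(tab r) := by exact_mod_cast h5

end

end Pool.Agent.R422.CT
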